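import Pool.Agent.Helper89.GW.Stmts

set_option autoImplicit false

/-!
SCAL: the scaled relative ball.
-/

open scoped ContDiff Topology
open Set Filter

namespace GW

/-- scaling of the coordinates `0` and `3` -/
noncomputable def scal_T (S : ℝ) : E →L[ℝ] E :=
  ContinuousLinearMap.pi fun i =>
    (if i = 0 ∨ i = 3 then S else 1) • (ContinuousLinearMap.proj i : E →L[ℝ] ℝ)

lemma scal_T0 (S : ℝ) (y : E) : scal_T S y 0 = S * y 0 := by
  simp [scal_T]

lemma scal_T1 (S : ℝ) (y : E) : scal_T S y 1 = y 1 := by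
  simp [scal_T]

lemma scal_T2 (S : ℝ) (y : E) : scal_T S y 2 = y 2 := by
  simp [scal_T]

lemma scal_T3 (S : ℝ) (y : E) : scal_T S y 3 = S * y 3 := by
  simp [scal_T]

lemma scal_om (S : ℝ) (a b : E) : om (scal_T S a) (scal_T S b) = S * om a b := by
  unfold om
  rw [scal_T0, scal_T0, scal_T1, scal_T1, scal_T2, scal_T2, scal_T3, scal_T3]
  ring

lemma scal_inj (S : ℝ) (hS : S ≠ 0) : Function.Injective (scal_T S) := by
  intro a b h
  have h0 := congrFun h 0
  have h1 := congrFun h 1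
  have h2 := congrFun h 2
  have h3 := congrFun h 3
  rw [scal_T0, scal_T0] at h0
  rw [scal_T1, scal_T1] at h1
  rw [scal_T2, scal_T2] at h2
  rw [scal_T3, scal_T3] at h3
  funext i
  fin_cases i
  · exact mul_left_cancel₀ hS h0
  · exact h1
  · exact h2
  · exact mul_left_cancel₀ hS h3

lemma scal_open (r : ℝ) : IsOpen (bal r) := by
  unfold bal
  exact isOpen_lt (by fun_prop) continuous_const

theorem st_SCAL : ST_SCAL := by
  intro L F β t₀ t₁ hd r χ hr hχ ht S hS
  have hS0 : 0 < S := by linarith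
  have hq : 0 < Real.sqrt S := Real.sqrt_pos.mpr hS0
  obtain ⟨σ, hσ⟩ : ∃ σ : ℝ, σ = 1 / Real.sqrt S := ⟨_, rfl⟩
  have hσ0 : 0 < σ := by rw [hσ]; positivity
  have hσ2 : σ * σ * S = 1 := by
    rw [hσ]
    have h := Real.mul_self_sqrt hS0.le
    field_simp
    rw [sq]
    exact h.symm
  have hmem : ∀ x ∈ bal (Real.sqrt S * r), σ • x ∈ bal r := by
    intro x hx
    have h1 : x 0 ^ 2 + x 1 ^ 2 + x 2 ^ 2 + x 3 ^ 2 < (Real.sqrt S * r) ^ 2 := hx
    show (σ • x) 0 ^ 2 + (σ • x) 1 ^ 2 + (σ • x) 2 ^ 2 + (σ • x) 3 ^ 2 < r ^ 2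
    have h2 : (σ • x) 0 ^ 2 + (σ • x) 1 ^ 2 + (σ • x) 2 ^ 2 + (σ • x) 3 ^ 2 =
        σ * σ * (x 0 ^ 2 + x 1 ^ 2 + x 2 ^ 2 + x 3 ^ 2) := by
      simp only [Pi.smul_apply, smul_eq_mul]; ring
    rw [h2]
    have h3 : (Real.sqrt S * r) ^ 2 = S * r ^ 2 := by
      rw [mul_pow, Real.sq_sqrt hS0.le]
    rw [h3] at h1
    calc σ * σ * (x 0 ^ 2 + x 1 ^ 2 + x 2 ^ 2 + x 3 ^ 2) < σ * σ * (S * r ^ 2) :=
          mul_lt_mul_of_pos_left h1 (mul_pos hσ0 hσ0)
      _ = (σ * σ * S) * r ^ 2 := by ring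
      _ = r ^ 2 := by rw [hσ2, one_mul]
  have hPhi : ∀ p : E, p 2 < t₀ → Phi β F S p = scal_T S p := by
    intro p hp
    have h1 : β (p 2) = 1 := hd.one _ hp.le
    have h2 : deriv β (p 2) = 0 := by
      by_contra h
      exact absurd (hd.loc _ h).1 (not_lt.mpr hp.le)
    funext i
    fin_cases i
    · show al β S (p 2) * p 0 = _
      rw [show scal_T S p ((fun i => i) ⟨0, by norm_num⟩) = scal_T S p 0 from rfl, scal_T0]
      unfold al
      rw [h1]; ring
    · show p 1 = _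
      rw [show scal_T S p ((fun i => i) ⟨1, by norm_num⟩) = scal_T S p 1 from rfl, scal_T1]
    · show p 2 = _
      rw [show scal_T S p ((fun i => i) ⟨2, by norm_num⟩) = scal_T S p 2 from rfl, scal_T2]
    · show al β S (p 2) * p 3 - (S - 1) * deriv β (p 2) * F p = _
      rw [show scal_T S p ((fun i => i) ⟨3, by norm_num⟩) = scal_T S p 3 from rfl, scal_T3]
      unfold al
      rw [h1, h2]; ring
  have hPhi2 : ∀ p : E, (Phi β F S p) 2 = p 2 := fun p => rfl
  have hdiff : ∀ x ∈ bal (Real.sqrt S * r),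
      HasFDerivAt (fun x => scal_T S (χ (σ • x)))
        ((scal_T S).comp ((fderiv ℝ χ (σ • x)).comp (σ • ContinuousLinearMap.id ℝ E))) x := by
    intro x hx
    have h1 : DifferentiableAt ℝ χ (σ • x) :=
      (hχ.1.contDiffAt ((scal_open r).mem_nhds (hmem x hx))).differentiableAt (by simp)
    have h2 : HasFDerivAt (fun x : E => σ • x) (σ • ContinuousLinearMap.id ℝ E) x :=
      (hasFDerivAt_id x).const_smul σ
    exact (scal_T S).hasFDerivAt.comp x (h1.hasFDerivAt.comp x h2)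
  refine ⟨fun x => scal_T S (χ (σ • x)), ?_, ?_, ?_, ?_⟩
  · have h1 : ContDiffOn ℝ ∞ (fun x : E => χ (σ • x)) (bal (Real.sqrt S * r)) :=
      hχ.1.comp (contDiff_const_smul σ).contDiffOn hmem
    exact (scal_T S).contDiff.comp_contDiffOn h1
  · intro x hx y hy h
    have h1 := scal_inj S hS0.ne' h
    have h2 := hχ.2.1 (hmem x hx) (hmem y hy) h1
    exact smul_right_injective E hσ0.ne' h2
  · intro x hx u v
    rw [(hdiff x hx).fderiv]
    show om (scal_T S (fderiv ℝ χ (σ • x) (σ • u))) (scal_T S (fderiv ℝ χ (σ • x) (σ • v))) = _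
    rw [scal_om, hχ.2.2.1 (σ • x) (hmem x hx)]
    have h1 : om (σ • u) (σ • v) = σ * σ * om u v := by
      unfold om
      simp only [Pi.smul_apply, smul_eq_mul]; ring
    rw [h1]
    calc S * (σ * σ * om u v) = (σ * σ * S) * om u v := by ring
      _ = om u v := by rw [hσ2, one_mul]
  · intro x hx
    have h2 := ht _ (hmem x hx)
    have h3 : scal_T S (χ (σ • x)) ∈ Phi β F S '' L ↔ χ (σ • x) ∈ L := by
      constructor
      · rintro ⟨p, hp, hpe⟩
        have h4 : p 2 = (χ (σ • x)) 2 := by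
          have h5 := congrFun hpe 2
          rw [hPhi2, scal_T2] at h5
          exact h5
        rw [hPhi p (by rw [h4]; exact h2)] at hpe
        rw [← scal_inj S hS0.ne' hpe]
        exact hp
      · intro h
        exact ⟨_, h, hPhi _ h2⟩
    show scal_T S (χ (σ • x)) ∈ Phi β F S '' L ↔ _
    rw [h3, hχ.2.2.2 _ (hmem x hx)]
    simp only [Pi.smul_apply, smul_eq_mul, mul_eq_zero, hσ0.ne', false_or]

end GW
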